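import Mathlib
import Pool.Agent.N675.FS.Top

/-!
Correlations of von Mangoldt functions and of the Liouville function at affine functions of several
variables with FIXED constants, at all but few scales. For example
`∑_{m ≤ x} |∑_{n ≤ x} Λ(n + h_1) ⋯ Λ(n + h_k) λ(n + m + h'_1) ⋯ λ(n + m + h'_l)| = o(x²)` for `l` odd
and for `l = 2`, and the eight sign patterns of `λ(n + m), λ(n + m + 1), λ(n + m + 2)` are
equidistributed relative to `Λ(n + h_1) ⋯ Λ(n + h_k)` for almost all `m`.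
-/

namespace Pool.Agent.Results.MP_e6fa8b_nt.FixedShiftsFewScales

open Finset

/-- The Liouville function of `|m|`, with value `1` at `m = 0`. -/
noncomputable def lam (m : ℤ) : ℝ := (-1) ^ ArithmeticFunction.cardFactors m.natAbs

/-- The von Mangoldt function of `|m|`. -/
noncomputable def Lam (m : ℤ) : ℝ := ArithmeticFunction.vonMangoldt m.natAbs

/-- The affine function `φ(y) + b`. -/
def aff {n : ℕ} (φ : Fin n → ℤ) (b : ℤ) (y : Fin n → ℤ) : ℤ := ∑ s, φ s * y s + b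

/-- The linear forms `φ` and `ψ` are parallel (proportional). -/
def Par {n : ℕ} (φ ψ : Fin n → ℤ) : Prop := ∀ s s', φ s * ψ s' = φ s' * ψ s

/-- `φ_i + b_i` and `φ_j + b_j` are not proportional as affine functions. -/
def NotProp {k n : ℕ} (φ : Fin k → Fin n → ℤ) (b : Fin k → ℤ) (i j : Fin k) : Prop :=
  ¬ Par (φ i) (φ j) ∨ ∃ s, φ i s * b j ≠ φ j s * b i

open Classical in
/-- The class of the form `φ i₀`: the `i` such that `φ i` is parallel to `φ i₀`. -/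
noncomputable def cls {k n : ℕ} (φ : Fin k → Fin n → ℤ) (i₀ : Fin k) : Finset (Fin k) :=
  univ.filter fun i => Par (φ i) (φ i₀)

section

variable {p t q k : ℕ} (θ : Fin t → Fin (p + 1) → ℤ) (e : Fin t → ℤ) (χ : Fin q → Fin (p + 1) → ℤ)
  (φ : Fin k → Fin (p + 1) → ℤ) (b : Fin k → ℤ)

/-- The form `φ i` depends on the variable `0`, and it is parallel to none of the forms
`θ j`, `χ j`. -/
def Free (i : Fin k) : Prop := φ i 0 ≠ 0 ∧ (∀ j, ¬ Par (θ j) (φ i)) ∧ ∀ j, ¬ Par (χ j) (φ i)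

/-- For some free `i₀` the class of `φ i₀` has an odd number of elements, or it has exactly two
elements, not proportional as affine functions. -/
def Good : Prop :=
  ∃ i₀, Free θ χ φ i₀ ∧
    (Odd (cls φ i₀).card ∨ ((cls φ i₀).card = 2 ∧ ∃ i ∈ cls φ i₀, NotProp φ b i i₀))

/-- `∑_m |∑_{n ≤ x} ∏ Λ(|θ_j(n, m) + e_j|) ∏ f_j(χ_j(n, m)) W(n, m)|`, where `m` runs through the
vectors with `1 ≤ m_j ≤ X_j`. -/
noncomputable def S (f : Fin q → ℤ → ℝ) (x : ℕ) (X : Fin p → ℕ)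
    (W : (Fin (p + 1) → ℤ) → ℝ) : ℝ :=
  ∑ m ∈ Fintype.piFinset (fun j => Icc (1 : ℤ) (X j)), |∑ n ∈ Icc (1 : ℤ) x,
    (∏ j, Lam (aff (θ j) (e j) (Fin.cons n m))) *
    (∏ j, f j (aff (χ j) 0 (Fin.cons n m))) * W (Fin.cons n m)|

/-- The sizes of the scale `N / 2^i`: `x` and the `X_j` lie between `N / (R 2^i)` and
`R N / 2^i`. -/
def OfScale (R N i x : ℕ) (X : Fin p → ℕ) : Prop :=
  (N ≤ R * 2 ^ i * x ∧ 2 ^ i * x ≤ R * N) ∧ ∀ j, N ≤ R * 2 ^ i * X j ∧ 2 ^ i * X j ≤ R * N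

open Classical in
/-- The exceptional scales `1 ≤ i ≤ J` for the products of `k` values of the Liouville function:
for some sizes of the scale `N / 2^i` and some `f_j : ℤ → [-1, 1]` the sum is large. -/
noncomputable def excCorr (R : ℕ) (ε : ℝ) (J N : ℕ) : Finset ℕ :=
  (Icc 1 J).filter fun i => ∃ (x : ℕ) (X : Fin p → ℕ) (f : Fin q → ℤ → ℝ), OfScale R N i x X ∧
    (∀ j m, |f j m| ≤ 1) ∧
    ε * (x * ∏ j, (X j : ℝ)) < S θ e χ f x X (fun y => ∏ i, lam (aff (φ i) (b i) y))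

open Classical in
/-- The exceptional scales `1 ≤ i ≤ J` for the sign patterns. -/
noncomputable def excPat (R : ℕ) (ε : ℝ) (J N : ℕ) : Finset ℕ :=
  (Icc 1 J).filter fun i => ∃ (x : ℕ) (X : Fin p → ℕ) (f : Fin q → ℤ → ℝ) (σ : Fin k → ℝ),
    OfScale R N i x X ∧ (∀ j m, |f j m| ≤ 1) ∧ (∀ i, σ i = 1 ∨ σ i = -1) ∧
    ε * (x * ∏ j, (X j : ℝ)) < S θ e χ f x X
      (fun y => (if ∀ i, lam (aff (φ i) (b i) y) = σ i then 1 else 0) - 1 / 2 ^ k)

end

open Classical in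
/-- Correlations and sign patterns at fixed shifts, relative to products of von Mangoldt functions
and arbitrary bounded functions, at all but few scales: the sum of `1 / i` over the exceptional
scales is at most `C`, where `C` does not depend on `J` and `N`. -/
theorem result (p t q k : ℕ) (θ : Fin t → Fin (p + 1) → ℤ) (e : Fin t → ℤ)
    (χ : Fin q → Fin (p + 1) → ℤ) (φ : Fin k → Fin (p + 1) → ℤ) (b : Fin k → ℤ)
    (hθ : ∀ j, θ j ≠ 0) (hφ : ∀ i, φ i ≠ 0) (hNP : ∀ j j', j ≠ j' → NotProp θ e j j') :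
    (Good θ χ φ b → ∀ (R : ℕ) (ε : ℝ), 0 < ε → ∃ C : ℝ, ∀ J : ℕ, ∃ N₀ : ℕ, ∀ N : ℕ, N₀ ≤ N →
      ∑ i ∈ excCorr θ e χ φ b R ε J N, 1 / (i : ℝ) ≤ C) ∧
    ((∀ i, Free θ χ φ i) → (∀ i j, i ≠ j → NotProp φ b i j) → (∀ i₀, (cls φ i₀).card ≤ 3) →
      ∀ (R : ℕ) (ε : ℝ), 0 < ε → ∃ C : ℝ, ∀ J : ℕ, ∃ N₀ : ℕ, ∀ N : ℕ, N₀ ≤ N →
      ∑ i ∈ excPat θ e χ φ b R ε J N, 1 / (i : ℝ) ≤ C) := by
  have hcls : ∀ i₀, cls φ i₀ = Pool.Agent.N675.FS.cl φ Finset.univ i₀ := by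
    intro i₀
    ext i
    unfold cls Pool.Agent.N675.FS.cl
    rw [Finset.mem_filter, Finset.mem_filter]
    rfl
  have hpar : ∀ {n : ℕ} (α β : Fin n → ℤ), ¬ Par α β → ∃ s s', α s * β s' ≠ α s' * β s := by
    intro n α β h
    unfold Par at h
    push Not at h
    exact h
  have hNPa : Pool.Agent.N675.RL.NPa θ e := by
    intro j j' hjj
    rcases hNP j j' hjj with h | h
    · obtain ⟨s, s', h1⟩ := hpar _ _ h
      exact Or.inl ⟨s, s', fun h2 => h1 (by rw [h2]; ring)⟩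
    · exact Or.inr h
  constructor
  · rintro ⟨i₀, ⟨h0, h1, h2⟩, hg⟩ R ε hε
    obtain ⟨C, hC⟩ := Pool.Agent.N675.FS.lam_fl θ e χ φ b hθ hφ hNPa Finset.univ
      ⟨i₀, Finset.mem_univ _, h0, fun j => hpar _ _ (h1 j), fun j => hpar _ _ (h2 j), by
        rcases hg with h3 | ⟨h3, i, hi, h4⟩
        · exact Or.inl (by rw [← hcls]; exact h3)
        · refine Or.inr ⟨by rw [← hcls]; exact h3, i, by rw [← hcls]; exact hi, ?_⟩
          rcases h4 with h4 | h4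
          · exact absurd (Finset.mem_filter.1 hi).2 h4
          · exact h4⟩ R ε hε
    refine ⟨C, fun J => ?_⟩
    obtain ⟨N₀, hN₀⟩ := hC J
    refine ⟨N₀, fun N hN => (Finset.sum_le_sum_of_subset_of_nonneg ?_
      fun _ _ _ => by positivity).trans (hN₀ N hN)⟩
    intro i hi
    unfold excCorr at hi
    unfold Pool.Agent.N675.FS.excL
    rw [Finset.mem_filter] at hi ⊢
    obtain ⟨hiJ, x, X, f, hS, hf, hlt⟩ := hi
    refine ⟨hiJ, x, X, hS.1, hS.2, f, hf, lt_of_lt_of_le hlt (le_of_eq ?_)⟩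
    unfold S Pool.Agent.N675.FS.SL
    simp only [aff, add_zero]
    rfl
  · intro hF hNPφ h3 R ε hε
    obtain ⟨C, hC⟩ := Pool.Agent.N675.FS.lam_flp θ e χ φ b hθ hφ hNPa (fun E hE => by
      have hN' : ∀ i j, i ≠ j → (∃ s s', φ i s * φ j s' ≠ φ i s' * φ j s) ∨
          ∃ s, φ i s * b j ≠ φ j s * b i := by
        intro i j hij
        rcases hNPφ i j hij with h | h
        · exact Or.inl (hpar _ _ h)
        · exact Or.inr h
      obtain ⟨i₀, hi₀, hcase⟩ := Pool.Agent.N675.FS.good_of_three φ b hN'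
        (fun i₀ => by rw [← hcls]; exact h3 i₀) E hE
      exact ⟨i₀, hi₀, (hF i₀).1, fun j => hpar _ _ ((hF i₀).2.1 j),
        fun j => hpar _ _ ((hF i₀).2.2 j), hcase⟩) R ε hε
    refine ⟨C, fun J => ?_⟩
    obtain ⟨N₀, hN₀⟩ := hC J
    refine ⟨N₀, fun N hN => (Finset.sum_le_sum_of_subset_of_nonneg ?_
      fun _ _ _ => by positivity).trans (hN₀ N hN)⟩
    intro i hi
    unfold excPat at hi
    unfold Pool.Agent.N675.FS.excL
    rw [Finset.mem_filter] at hi ⊢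
    obtain ⟨hiJ, x, X, f, σ, hS, hf, hσ, hlt⟩ := hi
    refine ⟨hiJ, x, X, hS.1, hS.2, f, σ, hf, hσ, lt_of_lt_of_le hlt (le_of_eq ?_)⟩
    unfold S Pool.Agent.N675.FS.SL
    simp only [aff, add_zero]
    rfl

end Pool.Agent.Results.MP_e6fa8b_nt.FixedShiftsFewScales
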