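import Mathlib
import Pool.Agent.N781.P.Fin

/-!
Chowla correlations of odd order along almost all prime dilates and prime tuples, at every scale.
-/

open Pool.Agent.N675 Pool.Agent.N781.A Pool.Agent.N781.P in
/-- Let `k` be odd, let `a i n + b i d`, `i < k`, be forms with `a i ≠ 0`, and let `α j d + β j`,
`j < t`, be linear polynomials with `α j ≠ 0`, no two of them proportional. For all `R` and all
`ε > 0` there is `K` such that for all `D ≥ K`, all `x` with `D ≤ R x` and all real `γ` the sum over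
`d ≤ D` of `∏ j, Λ(|α j d + β j|)` times the ABSOLUTE VALUE of the sum over `n ≤ x` of
`e(γ n) ∏ i, λ(|a i n + b i d|)` is at most `ε D x`. -/
theorem Pool.Agent.Results.MP_e6fa8b_nt.PrimeDilates.result :
    ∀ (k t : ℕ) (a b : Fin k → ℤ) (α β : Fin t → ℤ), Odd k → (∀ i, a i ≠ 0) → (∀ j, α j ≠ 0) →
      (∀ j j', j ≠ j' → α j * β j' ≠ α j' * β j) →
      ∀ (R : ℕ) (ε : ℝ), 0 < ε → ∃ K : ℕ, ∀ D x : ℕ, K ≤ D → D ≤ R * x → ∀ γ : ℝ,
        ∑ d ∈ Finset.Icc (1 : ℤ) D,
          (∏ j, ArithmeticFunction.vonMangoldt (α j * d + β j).natAbs) *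
            ‖∑ n ∈ Finset.Icc (1 : ℤ) x,
              Complex.exp (2 * Real.pi * Complex.I * ((γ * n : ℝ) : ℂ)) *
                ∏ i, (-1 : ℂ) ^ ArithmeticFunction.cardFactors (a i * n + b i * d).natAbs‖
          ≤ ε * (D * x) := by
  intro k t a b α β hk ha hα hαβ R ε hε
  obtain ⟨K, hK⟩ := p_lam k t a b α β hk ha hα hαβ R ε hε
  refine ⟨K + 1, fun D x hD hDx γ => ?_⟩
  have h := hK D x (by omega) hDx γ
  have hx1 : 0 < x := by
    rcases Nat.eq_zero_or_pos x with h0 | h0
    · rw [h0, Nat.mul_zero] at hDx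
      omega
    · exact h0
  have hx0 : (0 : ℝ) < x := by exact_mod_cast hx1
  have h1 : ∀ d : ℤ, ‖∑ n ∈ Finset.Icc (1 : ℤ) x,
            Complex.exp (2 * Real.pi * Complex.I * ((γ * n : ℝ) : ℂ)) *
              ∏ i, (-1 : ℂ) ^ ArithmeticFunction.cardFactors (a i * n + b i * d).natAbs‖
      = x * ‖M.ccg a (fun i (_ : Fin 1) => b i) (fun _ m => M.lc m) γ x (fun _ => d)‖ := by
    intro d
    unfold M.ccg av
    rw [norm_div, Complex.norm_natCast, mul_div_cancel₀ _ hx0.ne']
    congr 1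
    refine Finset.sum_congr rfl fun n _ => ?_
    congr 1
    · unfold eR
      congr 1
      push_cast
      ring
    · refine Finset.prod_congr rfl fun i _ => ?_
      unfold M.lc lamA LL
      push_cast
      simp
  calc _ = ∑ d ∈ Finset.Icc (1 : ℤ) D, x * ((∏ j, ArithmeticFunction.vonMangoldt
        (α j * d + β j).natAbs) *
          ‖M.ccg a (fun i (_ : Fin 1) => b i) (fun _ m => M.lc m) γ x (fun _ => d)‖) :=
        Finset.sum_congr rfl fun d _ => by rw [h1]; ring
    _ = x * ∑ d ∈ Finset.Icc (1 : ℤ) D, ((∏ j, ArithmeticFunction.vonMangoldt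
        (α j * d + β j).natAbs) *
          ‖M.ccg a (fun i (_ : Fin 1) => b i) (fun _ m => M.lc m) γ x (fun _ => d)‖) := by
        rw [Finset.mul_sum]
    _ ≤ x * (ε * D) := mul_le_mul_of_nonneg_left h hx0.le
    _ = _ := by ring
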