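import Mathlib
import Pool.Agent.N675.RL.All

/-!
Joint correlations of the von Mangoldt function (at arbitrary affine forms, for instance at arbitrary
fixed shifts) and of the Liouville function, inside one sum over `n`, for almost all values of long and
of arbitrarily short parameters.
-/

namespace Pool.Agent.Results.MP_e6fa8b_nt.PrimeTuplesWithClusters

open Pool.Agent.N675 Pool.Agent.N675.RL Pool.Agent.N781.A

/-- The Liouville function of `|m|`, with value `1` at `m = 0`. -/
noncomputable def lam (m : ℤ) : ℝ := (-1) ^ ArithmeticFunction.cardFactors m.natAbs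

/-- The von Mangoldt function of `|m|`. -/
noncomputable def Lam (m : ℤ) : ℝ := ArithmeticFunction.vonMangoldt m.natAbs

/-- No two of the affine functions `b j * n + ∑ u, β j u * m u + e j` of `(n, m)` are proportional. -/
def NonProp {p t : ℕ} (b : Fin t → ℤ) (β : Fin t → Fin p → ℤ) (e : Fin t → ℤ) : Prop :=
  ∀ j j', j ≠ j' → ∀ c c' : ℤ, c * b j = c' * b j' → (∀ u, c * β j u = c' * β j' u) →
    c * e j = c' * e j' → c = 0 ∧ c' = 0

/-- The cluster of the form `i₀` in the set `E` of the forms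
`a i * n + ∑ u, α i u * m u + ∑ g, L i g * y g`: the forms of `E` whose vector of coefficients at
`n` and at the `m u` is proportional to the one of the form `i₀`. -/
def cluster {p k : ℕ} (a : Fin k → ℤ) (α : Fin k → Fin p → ℤ) (E : Finset (Fin k)) (i₀ : Fin k) :
    Finset (Fin k) := E.filter fun i => ∀ u, a i₀ * α i u = a i * α i₀ u

/-- The set `E` of forms is good (with respect to the affine functions `b, β` and the forms
`a', α'`): for some form `i₀` of `E`, no affine function `b, β` and no form `a', α'` has a vector of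
coefficients at `n` and the `m u` which is proportional to the one of `i₀`, and the cluster of `i₀`
has an odd number of elements, or it contains a form which is not a combination of the other forms
of the cluster: there is a direction `(w, v, v')` in which it varies and the other ones do not. -/
def Good {p s t q k : ℕ} (b : Fin t → ℤ) (β : Fin t → Fin p → ℤ) (a' : Fin q → ℤ)
    (α' : Fin q → Fin p → ℤ) (a : Fin k → ℤ) (α : Fin k → Fin p → ℤ) (L : Fin k → Fin s → ℤ)
    (E : Finset (Fin k)) : Prop :=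
  ∃ i₀ ∈ E, (∀ j, ∃ u, a i₀ * β j u ≠ b j * α i₀ u) ∧
    (∀ j, ∃ u, a i₀ * α' j u ≠ a' j * α i₀ u) ∧
    (Odd (cluster a α E i₀).card ∨ ∃ i₁ ∈ cluster a α E i₀,
      ∃ (w : ℤ) (v : Fin p → ℤ) (v' : Fin s → ℤ),
      a i₁ * w + ∑ u, α i₁ u * v u + ∑ g, L i₁ g * v' g ≠ 0 ∧
      ∀ i ∈ cluster a α E i₀, i ≠ i₁ → a i * w + ∑ u, α i u * v u + ∑ g, L i g * v' g = 0)

open Classical in
/-- Variables: `n ≤ x`; long parameters `1 ≤ m u ≤ X u` (`x ≤ R X u`, `X u ≤ R x`); short parameters
`1 ≤ y g ≤ D g` (`K ≤ D g ≤ R x`, independent of each other and as small compared to `x` as one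
likes). Let `ψ j = b j n + ∑ u, β j u m u + e j` be affine functions of `(n, m)`, not constant, no two
proportional (for instance `n + h_1, ..., n + h_t` with arbitrary distinct fixed shifts), let
`χ j = a' j n + ∑ u, α' j u m u + ∑ g, L' j g y g` be further forms, with ARBITRARY functions `f j`
of modulus `≤ 1`, and let `φ i = a i n + ∑ u, α i u m u + ∑ g, L i g y g`, `i < k`, be forms with
`a i ≠ 0`. For all `R` and `ε > 0` there is `K` such that, for all sizes as above with `x ≥ K`: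
(1) if the set of all forms `φ i` is good, the sum over all parameters `(m, y)` of the ABSOLUTE VALUE
of the sum over `n ≤ x` of `∏ Λ(|ψ j|) ∏ f j (χ j) ∏ λ(φ i)` is at most `ε x ∏ X u ∏ D g`;
(2) if all nonempty sets of forms `φ i` are good, the same holds with the indicator function of a
sign pattern of the `λ(φ i)` minus `1 / 2 ^ k` in the place of the product of the `λ(φ i)`: the sign
patterns are equidistributed with respect to the weight `∏ Λ(|ψ j|) ∏ f j (χ j)`. -/
theorem result :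
    (∀ (p s t q k : ℕ) (b : Fin t → ℤ) (β : Fin t → Fin p → ℤ) (e : Fin t → ℤ)
      (a' : Fin q → ℤ) (α' : Fin q → Fin p → ℤ) (L' : Fin q → Fin s → ℤ)
      (a : Fin k → ℤ) (α : Fin k → Fin p → ℤ) (L : Fin k → Fin s → ℤ),
      (∀ j, b j ≠ 0 ∨ β j ≠ 0) → NonProp b β e → (∀ i, a i ≠ 0) →
      Good b β a' α' a α L Finset.univ → ∀ (R : ℕ) (ε : ℝ), 0 < ε →
      ∃ K : ℕ, ∀ (x : ℕ) (X : Fin p → ℕ) (D : Fin s → ℕ), K ≤ x → (∀ u, x ≤ R * X u) →
        (∀ u, X u ≤ R * x) → (∀ g, K ≤ D g) → (∀ g, D g ≤ R * x) →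
        ∀ f : Fin q → ℤ → ℝ, (∀ j m, |f j m| ≤ 1) →
        ∑ y ∈ Fintype.piFinset (fun g => Finset.Icc (1 : ℤ) (D g)),
          ∑ m ∈ Fintype.piFinset (fun u => Finset.Icc (1 : ℤ) (X u)),
            |∑ n ∈ Finset.Icc (1 : ℤ) x,
              (∏ j, Lam (b j * n + ∑ u, β j u * m u + e j)) *
              (∏ j, f j (a' j * n + ∑ u, α' j u * m u + ∑ g, L' j g * y g)) *
              ∏ i, lam (a i * n + ∑ u, α i u * m u + ∑ g, L i g * y g)|
          ≤ ε * (x * (∏ u, (X u : ℝ)) * ∏ g, (D g : ℝ))) ∧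
    (∀ (p s t q k : ℕ) (b : Fin t → ℤ) (β : Fin t → Fin p → ℤ) (e : Fin t → ℤ)
      (a' : Fin q → ℤ) (α' : Fin q → Fin p → ℤ) (L' : Fin q → Fin s → ℤ)
      (a : Fin k → ℤ) (α : Fin k → Fin p → ℤ) (L : Fin k → Fin s → ℤ),
      (∀ j, b j ≠ 0 ∨ β j ≠ 0) → NonProp b β e → (∀ i, a i ≠ 0) →
      (∀ E : Finset (Fin k), E.Nonempty → Good b β a' α' a α L E) → ∀ (R : ℕ) (ε : ℝ), 0 < ε →
      ∃ K : ℕ, ∀ (x : ℕ) (X : Fin p → ℕ) (D : Fin s → ℕ), K ≤ x → (∀ u, x ≤ R * X u) →
        (∀ u, X u ≤ R * x) → (∀ g, K ≤ D g) → (∀ g, D g ≤ R * x) →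
        ∀ f : Fin q → ℤ → ℝ, (∀ j m, |f j m| ≤ 1) →
        ∀ σ : Fin k → ℝ, (∀ i, σ i = 1 ∨ σ i = -1) →
        ∑ y ∈ Fintype.piFinset (fun g => Finset.Icc (1 : ℤ) (D g)),
          ∑ m ∈ Fintype.piFinset (fun u => Finset.Icc (1 : ℤ) (X u)),
            |∑ n ∈ Finset.Icc (1 : ℤ) x,
              (∏ j, Lam (b j * n + ∑ u, β j u * m u + e j)) *
              (∏ j, f j (a' j * n + ∑ u, α' j u * m u + ∑ g, L' j g * y g)) *
              ((if ∀ i, lam (a i * n + ∑ u, α i u * m u + ∑ g, L i g * y g) = σ i then 1 else 0)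
                - 1 / 2 ^ k)|
          ≤ ε * (x * (∏ u, (X u : ℝ)) * ∏ g, (D g : ℝ))) := by
  have hlam : ∀ m, lamA m = 1 ∨ lamA m = -1 := fun m => by
    unfold lamA
    exact neg_one_pow_eq_or ℝ _
  refine ⟨?_, ?_⟩
  · intro p s t q k b β e a' α' L' a α L hb hNP ha hg R ε hε
    exact rl_sub lamA (fun m => by rcases hlam m with h | h <;> rw [h] <;> simp) Q.sg_lam
      b β e hb hNP a' α' L' a α L ha Finset.univ hg R ε hε
  · intro p s t q k b β e a' α' L' a α L hb hNP ha hg R ε hε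
    exact rl_pat lamA hlam Q.sg_lam b β e hb hNP a' α' L' a α L ha hg R ε hε

end Pool.Agent.Results.MP_e6fa8b_nt.PrimeTuplesWithClusters
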