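import Mathlib
import Pool.Agent.N675.Q.All
import Pool.Agent.N40.QP.ORTH

/-!
Products of values of the Liouville function at linear forms in `n` and in several parameters, along
almost all those values of the parameters for which given affine functions of them are prime, or have
no small prime factors; the parameters may grow arbitrarily slowly.
-/

namespace Pool.Agent.Results.MP_e6fa8b_nt.RoughAndPrimeTuples

open Pool.Agent.N675 Pool.Agent.N675.Q Pool.Agent.N781.A

/-- The Liouville function of `|m|`, with value `1` at `m = 0`. -/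
noncomputable def lam (m : ℤ) : ℝ := (-1) ^ ArithmeticFunction.cardFactors m.natAbs

open Classical in
/-- The weight of the integer `m`: the von Mangoldt function of `|m|`, plus `log D` if no prime
`p ≤ D ^ δ` divides `m`. -/
noncomputable def weight (δ : ℝ) (D : ℕ) (m : ℤ) : ℝ :=
  (if ∀ p : ℕ, p.Prime → (p : ℝ) ≤ (D : ℝ) ^ δ → ¬ (p : ℤ) ∣ m then Real.log D else 0)
    + ArithmeticFunction.vonMangoldt m.natAbs

/-- No two of the affine functions `∑ u, l j u * z u + c j` are proportional. -/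
def NonProp {r t : ℕ} (l : Fin t → Fin r → ℤ) (c : Fin t → ℤ) : Prop :=
  ∀ j j', j ≠ j' → (∃ u u', l j u * l j' u' ≠ l j' u * l j u') ∨ ∃ u, l j u * c j' ≠ l j' u * c j

/-- The cluster of the form `i₀` in the set `E` of forms `a i n + ∑ g, ∑ u, L i g u * y g u`: the
forms of `E` whose vector of coefficients at `n` and at the parameters of the long blocks `g ∈ lg`
is proportional to the one of the form `i₀`. -/
def cluster {s r k : ℕ} (a : Fin k → ℤ) (L : Fin k → Fin s → Fin r → ℤ) (lg : Finset (Fin s))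
    (E : Finset (Fin k)) (i₀ : Fin k) : Finset (Fin k) :=
  E.filter fun i => ∀ g ∈ lg, ∀ u, a i * L i₀ g u = a i₀ * L i g u

/-- One of the clusters of `E` has an odd number of forms, or it contains a form which is not a
combination of the other ones: there is a direction `(w, v)` in which it varies and the other ones
do not. -/
def Good {s r k : ℕ} (a : Fin k → ℤ) (L : Fin k → Fin s → Fin r → ℤ) (lg : Finset (Fin s))
    (E : Finset (Fin k)) : Prop :=
  ∃ i₀ ∈ E, Odd (cluster a L lg E i₀).card ∨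
    ∃ i₁ ∈ cluster a L lg E i₀, ∃ (w : ℤ) (v : Fin s → Fin r → ℤ),
      a i₁ * w + ∑ g, ∑ u, L i₁ g u * v g u ≠ 0 ∧
      ∀ i ∈ cluster a L lg E i₀, i ≠ i₁ → a i * w + ∑ g, ∑ u, L i g u * v g u = 0

/-- the coefficients with one index for the parameters -/
def fl {s r k : ℕ} (L : Fin k → Fin s → Fin r → ℤ) (i : Fin k) (q : Fin s × Fin r) : ℤ :=
  L i q.1 q.2

/-- long blocks as a boolean function -/
def lgb {s : ℕ} (lg : Finset (Fin s)) (g : Fin s) : Bool := decide (g ∈ lg)

lemma LL_fl {s r k : ℕ} (L : Fin k → Fin s → Fin r → ℤ) (i : Fin k) (y : Fin s → Fin r → ℤ) :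
    LL (fl L) i (fun q => y q.1 q.2) = ∑ g, ∑ u, L i g u * y g u := by
  unfold LL fl
  rw [Fintype.sum_prod_type]

lemma cls_sub {s r k : ℕ} (a : Fin k → ℤ) (L : Fin k → Fin s → Fin r → ℤ) (lg : Finset (Fin s))
    (E : Finset (Fin k)) (i₀ : E) :
    (M.cls (fun i : E => a i) (fun i : E => fl L i) (fun q : Fin s × Fin r => lgb lg q.1) i₀).map
      (Function.Embedding.subtype _) = cluster a L lg E i₀ := by
  ext i
  rw [Finset.mem_map]
  unfold cluster
  rw [Finset.mem_filter]
  constructor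
  · rintro ⟨j, hj, rfl⟩
    rw [M.mem_cls] at hj
    exact ⟨j.2, fun g hg u => hj (g, u) (by simpa [lgb] using hg)⟩
  · rintro ⟨h1, h2⟩
    refine ⟨⟨i, h1⟩, ?_, rfl⟩
    rw [M.mem_cls]
    exact fun q hq => h2 q.1 (by simpa [lgb] using hq) q.2

lemma goodS_sub {s r k : ℕ} (a : Fin k → ℤ) (L : Fin k → Fin s → Fin r → ℤ)
    (lg : Finset (Fin s)) (E : Finset (Fin k)) (h : Good a L lg E) :
    M.GoodS (fun i : E => a i) (fun i : E => fl L i)
      (fun q : Fin s × Fin r => lgb lg q.1) := by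
  obtain ⟨i₀, hi₀, hodd | ⟨i₁, hi₁, w, v, hV1, hV0⟩⟩ := h
  · refine ⟨⟨i₀, hi₀⟩, Or.inl ?_⟩
    have h1 := cls_sub a L lg E ⟨i₀, hi₀⟩
    rw [← Finset.card_map (Function.Embedding.subtype _), h1]
    exact hodd
  · have h1 := cls_sub a L lg E ⟨i₀, hi₀⟩
    simp only at h1
    rw [← h1, Finset.mem_map] at hi₁
    obtain ⟨j₁, hj₁, rfl⟩ := hi₁
    have hv : ∀ i : Fin k, ∑ q : Fin s × Fin r, fl L i q * v q.1 q.2
        = ∑ g, ∑ u, L i g u * v g u := fun i => by
      unfold fl
      rw [Fintype.sum_prod_type]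
    refine ⟨⟨i₀, hi₀⟩, Or.inr ⟨j₁, hj₁, w, fun q => v q.1 q.2, ?_, fun j hj hne => ?_⟩⟩
    · show a j₁ * w + ∑ q : Fin s × Fin r, fl L j₁ q * v q.1 q.2 ≠ 0
      rw [hv]
      exact hV1
    · show a j * w + ∑ q : Fin s × Fin r, fl L j q * v q.1 q.2 = 0
      rw [hv]
      refine hV0 j ?_ ?_
      · rw [← h1]
        exact Finset.mem_map_of_mem _ hj
      · exact fun h2 => hne (Subtype.ext h2)

/-- Let `a i n + ∑ g, ∑ u, L i g u * y g u`, `i < k`, be integer linear forms in `n` and in the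
parameters `y g u` (`s` blocks of `r` parameters), with `a i ≠ 0`; some blocks `g ∈ lg` are called
long. For every block let `∑ u, l g j u * z u + c g j`, `j < t g`, be affine functions of the
parameters of the block, not constant and no two proportional. For all `R`, all `δ > 0` and `ε > 0`
there is `K` such that for all `x ≥ K` and all `D g` with `K ≤ D g ≤ R x`, and `x ≤ R (D g)` if `g`
is long:
(1) if the set of all forms is good, the sum over `1 ≤ y g u ≤ D g` of the product of the weights of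
the values of the affine functions times the ABSOLUTE VALUE of the sum over `1 ≤ n ≤ x` of the
product of the values of the Liouville function at the forms is at most `ε x ∏ (D g) ^ r`;
(2) if every nonempty set of the forms is good, the same bound holds for the difference between the
number of the `n ≤ x` with any given sign pattern and `x / 2 ^ k` instead of this sum. -/
theorem result :
    (∀ (s r k : ℕ) (t : Fin s → ℕ) (a : Fin k → ℤ) (L : Fin k → Fin s → Fin r → ℤ)
      (l : ∀ g, Fin (t g) → Fin r → ℤ) (c : ∀ g, Fin (t g) → ℤ) (lg : Finset (Fin s)),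
      (∀ i, a i ≠ 0) → (∀ g j, l g j ≠ 0) → (∀ g, NonProp (l g) (c g)) →
      Good a L lg Finset.univ → ∀ (R : ℕ) (δ ε : ℝ), 0 < δ → 0 < ε →
      ∃ K : ℕ, ∀ (D : Fin s → ℕ) (x : ℕ),
        K ≤ x → (∀ g, K ≤ D g) → (∀ g, D g ≤ R * x) → (∀ g ∈ lg, x ≤ R * D g) →
        ∑ y ∈ Fintype.piFinset (fun g => Fintype.piFinset fun _ => Finset.Icc (1 : ℤ) (D g)),
          (∏ g, ∏ j, weight δ (D g) (∑ u, l g j u * y g u + c g j)) *
            |∑ n ∈ Finset.Icc (1 : ℤ) x, ∏ i, lam (a i * n + ∑ g, ∑ u, L i g u * y g u)|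
          ≤ ε * (x * ∏ g, (D g : ℝ) ^ r)) ∧
    (∀ (s r k : ℕ) (t : Fin s → ℕ) (a : Fin k → ℤ) (L : Fin k → Fin s → Fin r → ℤ)
      (l : ∀ g, Fin (t g) → Fin r → ℤ) (c : ∀ g, Fin (t g) → ℤ) (lg : Finset (Fin s)),
      (∀ i, a i ≠ 0) → (∀ g j, l g j ≠ 0) → (∀ g, NonProp (l g) (c g)) →
      (∀ E : Finset (Fin k), E.Nonempty → Good a L lg E) →
      ∀ (R : ℕ) (δ ε : ℝ), 0 < δ → 0 < ε → ∃ K : ℕ, ∀ (D : Fin s → ℕ) (x : ℕ),
        K ≤ x → (∀ g, K ≤ D g) → (∀ g, D g ≤ R * x) → (∀ g ∈ lg, x ≤ R * D g) →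
        ∀ σ : Fin k → ℝ, (∀ i, σ i = 1 ∨ σ i = -1) →
        ∑ y ∈ Fintype.piFinset (fun g => Fintype.piFinset fun _ => Finset.Icc (1 : ℤ) (D g)),
          (∏ g, ∏ j, weight δ (D g) (∑ u, l g j u * y g u + c g j)) *
            |({n ∈ Finset.Icc (1 : ℤ) x |
                ∀ i, lam (a i * n + ∑ g, ∑ u, L i g u * y g u) = σ i}.card : ℝ)
              - x / 2 ^ k|
          ≤ ε * (x * ∏ g, (D g : ℝ) ^ r)) := by
  classical
  refine ⟨?_, ?_⟩
  · intro s r k t a L l c lg ha hl hNP hg R δ ε hδ hε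
    obtain ⟨K, hK⟩ := fin_sub t a (fl L) l c blk_all Pool.Agent.N40.QP.orth lamA
      (fun m => by unfold lamA; simp) sg_lam ha hl hNP (lgb lg) Finset.univ
      (goodS_sub a L lg Finset.univ hg) R δ ε hδ hε
    refine ⟨K, fun D x hx hD hDx hlg => ?_⟩
    have h := hK D x hx hD hDx (fun g hg => hlg g (by simpa [lgb] using hg))
    simp only [LL_fl] at h
    exact h
  · intro s r k t a L l c lg ha hl hNP hg R δ ε hδ hε
    obtain ⟨K, hK⟩ := fin_pat t a (fl L) l c blk_all Pool.Agent.N40.QP.orth lamA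
      (fun m => by unfold lamA; exact neg_one_pow_eq_or ℝ _) sg_lam ha hl hNP (lgb lg)
      (fun E hE => goodS_sub a L lg E (hg E hE)) R δ ε hδ hε
    refine ⟨K, fun D x hx hD hDx hlg σ hσ => ?_⟩
    have h := hK D x hx hD hDx (fun g hg => hlg g (by simpa [lgb] using hg)) σ hσ
    simp only [LL_fl] at h
    refine le_trans (le_of_eq (Finset.sum_congr rfl fun y _ => ?_)) h
    congr 4

end Pool.Agent.Results.MP_e6fa8b_nt.RoughAndPrimeTuples
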